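import Mathlib

set_option autoImplicit false

namespace Pool.Agent.Results.MP_26ecb3_co.Counter

/-- `A` is `s`-spanning: every element is a signed sum of at most `s` terms from `A`. -/
def Spanning {G : Type} [AddCommGroup G] (s : ℕ) (A : Finset G) : Prop :=
  ∀ g : G, ∃ l : G → ℤ, ∑ a ∈ A, |l a| ≤ s ∧ ∑ a ∈ A, l a • a = g

theorem two : ∀ g : ZMod 2 × ZMod 24, ∃ x y : Fin 11,
    |(x.val : ℤ) - 5| + |(y.val : ℤ) - 5| ≤ 5 ∧
      ((x.val : ℤ) - 5) • ((0, 3) : ZMod 2 × ZMod 24) + ((y.val : ℤ) - 5) • (1, 2) = g := by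
  decide +kernel

theorem result :
    IsLeast {m : ℕ | ∃ A : Finset (ZMod 2 × ZMod (2 * 12)), Spanning 5 A ∧ A.card = m} 2 ∧
      ¬ 12 ≤ 3 * 5 - 4 := by
  refine ⟨⟨⟨{(0, 3), (1, 2)}, fun g => ?_, by decide⟩, ?_⟩, by norm_num⟩
  · obtain ⟨x, y, h1, h2⟩ := two g
    have ne : ((0, 3) : ZMod 2 × ZMod (2 * 12)) ≠ (1, 2) := by decide
    refine ⟨fun a => if a = (0, 3) then (x.val : ℤ) - 5 else (y.val : ℤ) - 5, ?_, ?_⟩
    · rw [Finset.sum_pair ne]; simp only [if_pos rfl, if_neg ne.symm]; exact h1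
    · rw [Finset.sum_pair ne]; simp only [if_pos rfl, if_neg ne.symm]; exact h2
  · rintro _ ⟨A, hA, rfl⟩
    by_contra hc
    obtain ⟨a, ha⟩ := Finset.card_le_one_iff_subset_singleton.1 (show A.card ≤ 1 by omega)
    have key : ∀ g : ZMod 2 × ZMod (2 * 12), ∃ t : Fin 11, ((t.val : ℤ) - 5) • a = g := by
      intro g
      obtain ⟨l, h1, h2⟩ := hA g
      rcases Finset.subset_singleton_iff.1 ha with rfl | rfl
      · exact ⟨5, by simpa using h2⟩
      · rw [Finset.sum_singleton] at h1 h2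
        have := abs_le.1 h1
        refine ⟨⟨(l a + 5).toNat, by omega⟩, ?_⟩
        rw [← h2]
        congr 1
        simp only
        omega
    have := Fintype.card_le_of_surjective (fun t : Fin 11 => ((t.val : ℤ) - 5) • a) key
    simp at this

end Pool.Agent.Results.MP_26ecb3_co.Counter
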